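import Pool.Agent.Helper70.BI.HH.StHD

/-!
# Project BI, stage 7 (H): module TDA (the tube around a knotted sphere)
-/

set_option autoImplicit false

open scoped Topology unitInterval Manifold ContDiff
open Set Metric Pool.Agent.Helper65.Barb Pool.Agent.Helper18.BI
open Pool.Agent.Helper34.S5

namespace Pool.Agent.Helper70.HH

theorem m_TDA : StTDA := by
  intro F hF
  obtain ⟨δ, hδ, hδF⟩ := hA1 R4 R4 R4 𝓘(ℝ, R4) R4 F SP X2.isCompact_SP hF.1 hF.2
  have hN : IsOpen δ.source := δ.open_source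
  have hFc : ContinuousOn F δ.source := by
    refine ContinuousOn.congr δ.contMDiffOn_toFun.continuousOn ?_
    intro p hp
    exact (hδF p hp).symm
  have hopen : ∀ W : Set R4, IsOpen W → W ⊆ δ.source → IsOpen (F '' W) := by
    intro W hW hWs
    have h1 : F '' W = δ.toOpenPartialHomeomorph '' W := image_congr fun p hp => (hδF p (hWs hp)).symm
    rw [h1]
    exact δ.toOpenPartialHomeomorph.isOpen_image_of_subset_source hW hWs
  -- the tube
  have htube : ∃ η : ℝ, 0 < η ∧ η ≤ 1 / 5 ∧ ∀ c : ℂ, ‖c‖ < η → ∀ v : R3, v ≠ 0 →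
      Gc c v ∈ δ.source := by
    have h1 : IsOpen ((univ ×ˢ {v : R3 | v ≠ 0}) ∩ (fun z : ℂ × R3 => Gc z.1 z.2) ⁻¹' δ.source) :=
      continuousOn_Gc.isOpen_inter_preimage (isOpen_univ.prod isOpen_ne) hN
    have h2 : ({0} : Set ℂ) ×ˢ R.S2 ⊆ (univ ×ˢ {v : R3 | v ≠ 0}) ∩
        (fun z : ℂ × R3 => Gc z.1 z.2) ⁻¹' δ.source := by
      rintro ⟨c, v⟩ ⟨hc, hv⟩
      have hc' : c = 0 := hc
      have hv0 : v ≠ 0 := by
        rintro rfl
        have h3 : nsq (0 : R3) = 1 := hv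
        rw [nsq_eq_zero.2 rfl] at h3
        norm_num at h3
      refine ⟨⟨mem_univ _, hv0⟩, hδ (sph1_subset_SP ?_)⟩
      show Gc c v ∈ sph 1
      rw [hc', ← zc_eq_zero]
      exact zc_Gc (by norm_num) hv0
    obtain ⟨u, v, hu, hv, h3, h4, h5⟩ := generalized_tube_lemma isCompact_singleton
      R.isCompact_S2 h1 h2
    obtain ⟨r, hr, hr'⟩ := Metric.mem_nhds_iff.1 (hu.mem_nhds (h3 (mem_singleton _)))
    refine ⟨min r (1 / 5), by positivity, min_le_right _ _, ?_⟩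
    intro c hc w hw
    have h6 : (nm w)⁻¹ • w ∈ R.S2 := by
      show nsq ((nm w)⁻¹ • w) = 1
      rw [Helper34.S5.nsq_smul, nm, inv_pow, Real.sq_sqrt (nsq_nonneg w)]
      exact inv_mul_cancel₀ fun h => hw (nsq_eq_zero.1 h)
    have h7 := (h5 (mk_mem_prod (hr' (by rw [mem_ball_zero_iff]; exact lt_of_lt_of_le hc (min_le_left _ _))) (h4 h6))).2
    have h8 : Gc c ((nm w)⁻¹ • w) ∈ δ.source := h7
    rwa [Gc_smul c (inv_pos.2 (nm_pos hw)) hw] at h8
  obtain ⟨η, hη, hη5, hηN⟩ := htube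
  have hsub : {p : R4 | ‖zc p‖ < η} ⊆ δ.source := by
    intro p hp
    have hp' : ‖zc p‖ < η := hp
    have h0 : p.2 - (1, 0) ≠ 0 := by
      intro h
      have h1 : (zc p).im = -(1 / 5) := by
        show nm (p.2 - (1, 0)) - 1 / 5 = -(1 / 5)
        rw [h, nm, nsq_eq_zero.2 rfl, Real.sqrt_zero]
        ring
      have h2 := Complex.abs_im_le_norm (zc p)
      rw [h1, abs_neg, abs_of_pos (by norm_num : (0 : ℝ) < 1 / 5)] at h2
      linarith
    rw [← Gc_zc h0]
    exact hηN _ hp' _ h0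
  have hT : IsOpen {p : R4 | ‖zc p‖ < η} := isOpen_lt (continuous_norm.comp continuous_zc) continuous_const
  refine ⟨η, ⟨hη, hη5⟩, fun y => δ.symm y, hopen _ hT hsub, hFc.mono hsub, ?_, ?_⟩
  · refine δ.contMDiffOn_invFun.continuousOn.mono ?_
    rintro _ ⟨q, hq, rfl⟩
    rw [← hδF q (hsub hq)]
    exact δ.map_source' (hsub hq)
  · intro p hp
    show δ.symm (F p) = p
    rw [← hδF p (hsub hp)]
    exact δ.left_inv' (hsub hp)

end Pool.Agent.Helper70.HH
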